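import Pool.Agent.Y41.EV.StmL

/-!
Project EV: the set of curves with a long piece in the bulk with few fast pairs is open.
-/

set_option autoImplicit false

namespace Pool.Agent.Y287.EV

open H974 Finset H342P H984P H984N Y994.MC Pool.Agent.Y985.ME Pool.Agent.Y884.ME
open Pool.Agent.Y995.FS Pool.Agent.Y995.HG MeasureTheory Filter Topology
open Pool.Agent.Y41.EV

theorem dep_cont' (R : Rect) : Continuous (dep R) := by
  unfold dep
  exact ((Complex.continuous_re.add continuous_const).min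
    (continuous_const.sub Complex.continuous_re)).min
    (Complex.continuous_im.min (continuous_const.sub Complex.continuous_im))

/-- The type of families of pairs. -/
abbrev FP (N : ℕ) : Type := (Fin N → unitInterval) × (Fin N → unitInterval)

theorem pairs_closed (w τ : ℝ) (N : ℕ) (s t : unitInterval) :
    IsClosed {x : X × FP N | (∀ a, s ≤ x.2.1 a ∧ x.2.1 a ≤ x.2.2 a ∧ x.2.2 a ≤ t) ∧
      (∀ a b, a ≠ b → x.2.2 a ≤ x.2.1 b ∨ x.2.2 b ≤ x.2.1 a) ∧
      ∀ a, w ≤ dist (x.1.1 (x.2.1 a)) (x.1.1 (x.2.2 a)) ∧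
        x.1.2 * ((x.2.2 a : ℝ) - x.2.1 a) ≤ τ} := by
  have cu : ∀ a : Fin N, Continuous (fun x : X × FP N => x.2.1 a) := fun a => by fun_prop
  have cv : ∀ a : Fin N, Continuous (fun x : X × FP N => x.2.2 a) := fun a => by fun_prop
  have cu' : ∀ a : Fin N, Continuous (fun x : X × FP N => (x.2.1 a : ℝ)) := fun a => by fun_prop
  have cv' : ∀ a : Fin N, Continuous (fun x : X × FP N => (x.2.2 a : ℝ)) := fun a => by fun_prop
  have cp : ∀ a : Fin N, Continuous (fun x : X × FP N => x.1.1 (x.2.1 a)) := fun a => by fun_prop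
  have cq : ∀ a : Fin N, Continuous (fun x : X × FP N => x.1.1 (x.2.2 a)) := fun a => by fun_prop
  have cT : Continuous (fun x : X × FP N => x.1.2) := by fun_prop
  have e : {x : X × FP N | (∀ a, s ≤ x.2.1 a ∧ x.2.1 a ≤ x.2.2 a ∧ x.2.2 a ≤ t) ∧
      (∀ a b, a ≠ b → x.2.2 a ≤ x.2.1 b ∨ x.2.2 b ≤ x.2.1 a) ∧
      ∀ a, w ≤ dist (x.1.1 (x.2.1 a)) (x.1.1 (x.2.2 a)) ∧
        x.1.2 * ((x.2.2 a : ℝ) - x.2.1 a) ≤ τ} =
      (⋂ a : Fin N, ({x : X × FP N | s ≤ x.2.1 a} ∩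
        ({x : X × FP N | x.2.1 a ≤ x.2.2 a} ∩ {x : X × FP N | x.2.2 a ≤ t}))) ∩
      ((⋂ a : Fin N, ⋂ b : Fin N, ⋂ _ : a ≠ b,
        ({x : X × FP N | x.2.2 a ≤ x.2.1 b} ∪ {x : X × FP N | x.2.2 b ≤ x.2.1 a})) ∩
      (⋂ a : Fin N, ({x : X × FP N | w ≤ dist (x.1.1 (x.2.1 a)) (x.1.1 (x.2.2 a))} ∩
        {x : X × FP N | x.1.2 * ((x.2.2 a : ℝ) - x.2.1 a) ≤ τ}))) := by
    ext x
    simp only [Set.mem_iInter, Set.mem_ofPred_eq, Set.mem_inter_iff, Set.mem_union]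
  rw [e]
  refine IsClosed.inter (isClosed_iInter fun a => ?_) (IsClosed.inter
    (isClosed_iInter fun a => isClosed_iInter fun b => isClosed_iInter fun _ => ?_)
    (isClosed_iInter fun a => ?_))
  · exact (isClosed_le continuous_const (cu a)).inter
      ((isClosed_le (cu a) (cv a)).inter (isClosed_le (cv a) continuous_const))
  · exact (isClosed_le (cv a) (cu b)).union (isClosed_le (cv b) (cu a))
  · exact (isClosed_le continuous_const ((cp a).dist (cq a))).inter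
      (isClosed_le (cT.mul ((cv' a).sub (cu' a))) continuous_const)

/-- BADVO -/
theorem badvo : Pool.Agent.Y41.EV.S_BADVO := by
  intro R ρ w τ h N
  have e : BadV R ρ w τ h N = ⋃ s : unitInterval, ⋃ t : unitInterval,
      (((Prod.fst '' {x : X × unitInterval | (s ≤ x.2 ∧ x.2 ≤ t) ∧ dep R (x.1.1 x.2) ≤ ρ})ᶜ ∩
        {p : X | h < p.2 * ((t : ℝ) - s)}) ∩
        (Prod.fst '' {x : X × FP N |
          (∀ a, s ≤ x.2.1 a ∧ x.2.1 a ≤ x.2.2 a ∧ x.2.2 a ≤ t) ∧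
          (∀ a b, a ≠ b → x.2.2 a ≤ x.2.1 b ∨ x.2.2 b ≤ x.2.1 a) ∧
          ∀ a, w ≤ dist (x.1.1 (x.2.1 a)) (x.1.1 (x.2.2 a)) ∧
            x.1.2 * ((x.2.2 a : ℝ) - x.2.1 a) ≤ τ})ᶜ) := by
    ext p
    simp only [BadV, Set.mem_ofPred_eq, Set.mem_iUnion, Set.mem_inter_iff, Set.mem_compl_iff,
      Set.mem_image]
    constructor
    · rintro ⟨s, t, h1, h2, h3⟩
      refine ⟨s, t, ⟨?_, h2⟩, ?_⟩
      · rintro ⟨⟨p', u⟩, ⟨⟨a1, a2⟩, a3⟩, rfl⟩
        exact absurd a3 (not_le.2 (h1 u a1 a2))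
      · rintro ⟨⟨p', z⟩, ⟨a1, a2, a3⟩, rfl⟩
        exact h3 ⟨z.1, z.2, a1, a2, a3⟩
    · rintro ⟨s, t, ⟨h1, h2⟩, h3⟩
      refine ⟨s, t, ?_, h2, ?_⟩
      · intro u a1 a2
        by_contra hcon
        push Not at hcon
        exact h1 ⟨(p, u), ⟨⟨a1, a2⟩, hcon⟩, rfl⟩
      · rintro ⟨u, v, z1, z2, z3⟩
        exact h3 ⟨(p, (u, v)), ⟨z1, z2, z3⟩, rfl⟩
  rw [e]
  refine isOpen_iUnion fun s => isOpen_iUnion fun t => ?_
  refine IsOpen.inter (IsOpen.inter ?_ ?_) ?_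
  · rw [isOpen_compl_iff]
    refine isClosedMap_fst_of_compactSpace _ ?_
    have c0 : Continuous (fun x : X × unitInterval => x.1.1 x.2) := by fun_prop
    have c1 : Continuous (fun x : X × unitInterval => x.2) := by fun_prop
    exact ((isClosed_le continuous_const c1).inter (isClosed_le c1 continuous_const)).inter
      (isClosed_le ((dep_cont' R).comp c0) continuous_const)
  · have c0 : Continuous (fun p : X => p.2 * ((t : ℝ) - s)) := by fun_prop
    exact isOpen_lt continuous_const c0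
  · rw [isOpen_compl_iff]
    exact isClosedMap_fst_of_compactSpace _ (pairs_closed w τ N s t)

end Pool.Agent.Y287.EV
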