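import Pool.Agent.Y41.EV.StmD

/-!
Project EV, job FTOPEN: the set of the curves with many fast times is open.
-/

set_option autoImplicit false

namespace Pool.Agent.Y287.EV

open MeasureTheory Filter Topology Pool.Agent.Y41.EV

theorem ftopen : Pool.Agent.Y41.EV.S_FTOPEN := by
  intro a y h ha
  rw [← isClosed_compl_iff]
  apply IsSeqClosed.isClosed
  intro q p hq hlim
  simp only [Set.mem_compl_iff, Set.mem_ofPred_eq, not_lt] at hq ⊢
  rcases le_or_gt p.2 0 with hp | hp
  · exact (mul_nonpos_of_nonpos_of_nonneg hp ENNReal.toReal_nonneg).trans ha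
  by_contra hcon
  push Not at hcon
  -- the times which are fast for all large indices
  obtain ⟨B, hB⟩ : ∃ B : ℕ → Set unitInterval, B = fun N => {t | ∀ n, N ≤ n → t ∈ FT (q n) y h} :=
    ⟨_, rfl⟩
  have hBm : Monotone B := by
    intro N N' hNN t ht
    rw [hB] at ht ⊢
    exact fun n hn => ht n (hNN.trans hn)
  have hsub : FT p y h ⊆ ⋃ N, B N := by
    rintro t ⟨s, hs1, hs2⟩
    have c1 : Continuous fun p : C(unitInterval, ℂ) × ℝ => p.2 * |(s : ℝ) - t| := by fun_prop
    have c2 : Continuous fun p : C(unitInterval, ℂ) × ℝ => dist (p.1 s) (p.1 t) := by fun_prop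
    have e1 : ∀ᶠ n in atTop, (q n).2 * |(s : ℝ) - t| < h :=
      ((c1.tendsto p).comp hlim).eventually (gt_mem_nhds hs1)
    have e2 : ∀ᶠ n in atTop, y < dist ((q n).1 s) ((q n).1 t) :=
      ((c2.tendsto p).comp hlim).eventually (lt_mem_nhds hs2)
    obtain ⟨N, hN⟩ := eventually_atTop.1 (e1.and e2)
    rw [Set.mem_iUnion]
    refine ⟨N, ?_⟩
    rw [hB]
    exact fun n hn => ⟨s, (hN n hn).1, (hN n hn).2⟩
  have ht1 : Tendsto (fun N => (volume (B N)).toReal) atTop (𝓝 (volume (⋃ N, B N)).toReal) :=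
    (ENNReal.tendsto_toReal (measure_ne_top _ _)).comp (tendsto_measure_iUnion_atTop hBm)
  have ht2 : Tendsto (fun N => (q N).2) atTop (𝓝 p.2) :=
    (continuous_snd.tendsto p).comp hlim
  have ht3 := ht2.mul ht1
  have hle : ∀ᶠ N in atTop, (q N).2 * (volume (B N)).toReal ≤ a := by
    filter_upwards [ht2.eventually (lt_mem_nhds hp)] with N hN
    refine le_trans ?_ (hq N)
    refine mul_le_mul_of_nonneg_left ?_ hN.le
    refine ENNReal.toReal_mono (measure_ne_top _ _) (measure_mono ?_)
    intro t ht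
    rw [hB] at ht
    exact ht N le_rfl
  have h4 := le_of_tendsto ht3 hle
  have h5 : (volume (FT p y h)).toReal ≤ (volume (⋃ N, B N)).toReal :=
    ENNReal.toReal_mono (measure_ne_top _ _) (measure_mono hsub)
  have h6 : p.2 * (volume (FT p y h)).toReal ≤ p.2 * (volume (⋃ N, B N)).toReal :=
    mul_le_mul_of_nonneg_left h5 hp.le
  linarith

end Pool.Agent.Y287.EV
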