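import Pool.Agent.Y41.EV.StmD

/-!
Project EV, job P74: the `7/4`-variation is infinite.
-/

set_option autoImplicit false

namespace Pool.Agent.Y287.EV

open MeasureTheory Filter Topology Pool.Agent.Y41.EV

theorem ll_tend (L : ℝ) : ∃ d : ℝ, 0 < d ∧ ∀ x : ℝ, 0 < x → x ≤ d → L ≤ ll x ^ (3/4 : ℝ) := by
  obtain ⟨R, hR⟩ : ∃ R : ℝ, R = max L 1 := ⟨_, rfl⟩
  have hR1 : 1 ≤ R := by rw [hR]; exact le_max_right _ _
  have hRL : L ≤ R := by rw [hR]; exact le_max_left _ _
  obtain ⟨Z, hZ⟩ : ∃ Z : ℝ, Z = R ^ (4/3 : ℝ) := ⟨_, rfl⟩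
  have hZ3 : Z ^ (3/4 : ℝ) = R := by
    rw [hZ, ← Real.rpow_mul (by linarith)]
    norm_num
  have hZ0 : 0 ≤ Z := by rw [hZ]; positivity
  refine ⟨Real.exp (-Real.exp Z), Real.exp_pos _, fun x hx hxd => ?_⟩
  have h1 : Real.exp Z ≤ Real.log (1 / x) := by
    rw [one_div, Real.log_inv, le_neg]
    have := Real.log_le_log hx hxd
    rwa [Real.log_exp] at this
  have h2 : Z ≤ Real.log (Real.log (1 / x)) := by
    rw [Real.le_log_iff_exp_le (lt_of_lt_of_le (Real.exp_pos _) h1)]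
    exact h1
  have h3 : Z ≤ ll x := h2.trans (le_max_right _ _)
  calc L ≤ R := hRL
    _ = Z ^ (3/4 : ℝ) := hZ3.symm
    _ ≤ _ := Real.rpow_le_rpow hZ0 h3 (by norm_num)

theorem p74 : Pool.Agent.Y41.EV.S_P74 := by
  intro f T c hT hc hL s t hst η M hη
  have hst' : (s : ℝ) < t := hst
  obtain ⟨A, hA⟩ : ∃ A : ℝ, A = c * T * ((t : ℝ) - s) := ⟨_, rfl⟩
  have hA0 : 0 < A := by
    rw [hA]
    have : 0 < (t : ℝ) - s := by linarith
    positivity
  obtain ⟨L, hLdef⟩ : ∃ L : ℝ, L = max 0 (2 * M / A) := ⟨_, rfl⟩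
  have hL0 : 0 ≤ L := by rw [hLdef]; exact le_max_left _ _
  have hLM : M ≤ L * (A / 2) := by
    have h1 : 2 * M / A ≤ L := by rw [hLdef]; exact le_max_right _ _
    rw [div_le_iff₀ hA0] at h1
    linarith
  obtain ⟨d, hd, hdl⟩ := ll_tend L
  have huc := CompactSpace.uniformContinuous_of_continuous f.continuous
  rw [Metric.uniformContinuous_iff] at huc
  obtain ⟨δ, hδ, hdist⟩ := huc d hd
  obtain ⟨n, τ, h1, h2, h3, h4, h5⟩ := hL s t hst.le (min η (δ / 2)) (by positivity) (A / 2)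
    (by rw [← hA]; linarith)
  refine ⟨n, τ, h1, h2, h3, fun i hi => (h4 i hi).trans (min_le_left _ _), ?_⟩
  calc M ≤ L * (A / 2) := hLM
    _ ≤ L * ∑ i ∈ Finset.range n, psi (dist (f (τ i)) (f (τ (i + 1)))) :=
        mul_le_mul_of_nonneg_left h5 hL0
    _ = ∑ i ∈ Finset.range n, L * psi (dist (f (τ i)) (f (τ (i + 1)))) := Finset.mul_sum _ _ _
    _ ≤ _ := by
        refine Finset.sum_le_sum fun i hi => ?_
        rw [Finset.mem_range] at hi
        obtain ⟨x, hx⟩ : ∃ x, x = dist (f (τ i)) (f (τ (i + 1))) := ⟨_, rfl⟩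
        rw [← hx]
        have hx0 : 0 ≤ x := by rw [hx]; exact dist_nonneg
        rcases hx0.eq_or_lt with h6 | h6
        · rw [← h6, psi_zero, mul_zero, Real.zero_rpow (by norm_num)]
        · have h7 : x ≤ d := by
            rw [hx]
            apply le_of_lt
            apply hdist
            rw [Subtype.dist_eq, Real.dist_eq, abs_sub_comm, abs_of_nonneg]
            · have := (h4 i hi).trans (min_le_right _ _)
              linarith
            · have : (τ i : ℝ) ≤ τ (i + 1) := h1 (Nat.le_succ i)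
              linarith
          have h8 := hdl x h6 h7
          have h9 : 0 < ll x ^ (3/4 : ℝ) := Real.rpow_pos_of_pos (ll_pos x) _
          unfold psi
          rw [← mul_div_assoc, div_le_iff₀ h9, mul_comm]
          exact mul_le_mul_of_nonneg_left h8 (by positivity)

end Pool.Agent.Y287.EV
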