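import Pool.Agent.Y41.EV.StmD

/-!
Project EV, job SC3: simple facts about the scales.
-/

set_option autoImplicit false

namespace Pool.Agent.Y287.EV

open MeasureTheory Filter Topology Pool.Agent.Y995.HG Pool.Agent.Y41.EV

theorem half_tend : Tendsto (fun i : ℕ => ((1:ℝ)/2) ^ i) atTop (𝓝 0) :=
  tendsto_pow_atTop_nhds_zero_of_lt_one (by norm_num) (by norm_num)

theorem i_half (i : ℕ) : (i : ℝ) * (1/2) ^ i ≤ 1 := by
  have h1 : (i : ℝ) ≤ 2 ^ i := by
    have : i < 2 ^ i := Nat.lt_two_pow_self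
    exact_mod_cast this.le
  calc (i : ℝ) * (1/2) ^ i ≤ 2 ^ i * (1/2) ^ i := mul_le_mul_of_nonneg_right h1 (by positivity)
    _ = 1 := by rw [← mul_pow]; norm_num

theorem kf_le {K2 : ℝ} (hK : 1 ≤ K2) {i : ℕ} (hi : 1 ≤ i) :
    14 * K2 * (kf K2 i : ℝ) ≤ Real.log i := by
  have hi' : (1:ℝ) ≤ i := by exact_mod_cast hi
  have hl : 0 ≤ Real.log i := Real.log_nonneg hi'
  have h2 : ((kf K2 i : ℕ) : ℝ) ≤ Real.log i / (14 * K2) := Nat.floor_le (by positivity)
  rw [le_div_iff₀ (by positivity)] at h2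
  linarith

theorem kf_tend {K2 : ℝ} (hK : 1 ≤ K2) : Tendsto (kf K2) atTop atTop := by
  have h1 : Tendsto (fun i : ℕ => Real.log i / (14 * K2)) atTop atTop :=
    (Real.tendsto_log_atTop.comp tendsto_natCast_atTop_atTop).atTop_div_const (by linarith)
  exact tendsto_nat_floor_atTop.comp h1

theorem EE_pos (K2 : ℝ) (i : ℕ) : 0 < EE K2 i := Real.exp_pos _

theorem EE_le {K2 : ℝ} (hK : 1 ≤ K2) {i : ℕ} (hi : 1 ≤ i) : EE K2 i ≤ i := by
  have hi' : (1:ℝ) ≤ i := by exact_mod_cast hi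
  have h1 := kf_le hK hi
  have h2 : 2 * (K2 * (kf K2 i : ℝ)) ≤ Real.log i := by
    have : 0 ≤ K2 * (kf K2 i : ℝ) := by positivity
    linarith
  calc EE K2 i ≤ Real.exp (Real.log i) := Real.exp_le_exp.mpr h2
    _ = i := Real.exp_log (by linarith)

theorem EE_pow_le {K2 : ℝ} (hK : 1 ≤ K2) {i : ℕ} (hi : 1 ≤ i) :
    EE K2 i ^ (7/4 : ℝ) ≤ i := by
  have hi' : (1:ℝ) ≤ i := by exact_mod_cast hi
  have h1 := kf_le hK hi
  unfold EE
  rw [← Real.exp_mul]
  calc Real.exp (2 * (K2 * (kf K2 i : ℝ)) * (7/4)) ≤ Real.exp (Real.log i) := by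
        refine Real.exp_le_exp.mpr ?_
        have : 0 ≤ K2 * (kf K2 i : ℝ) := by positivity
        linarith
    _ = i := Real.exp_log (by linarith)

theorem ww_le {i : ℕ} (hi : 1 ≤ i) : ww i ≤ (1/2) ^ (2 * i) := by
  unfold ww
  refine pow_le_pow_of_le_one (by norm_num) (by norm_num) ?_
  nlinarith

theorem ww_pow_le {i : ℕ} (hi : 1 ≤ i) : ww i ^ (7/4 : ℝ) ≤ (1/2) ^ (7 * i) := by
  rw [ww_pow]
  refine pow_le_pow_of_le_one (by norm_num) (by norm_num) ?_
  nlinarith

theorem NN_pow (i : ℕ) : (NN i : ℝ) ≤ 2 ^ i := by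
  have : NN i ≤ 2 ^ i := Nat.div_le_self _ _
  exact_mod_cast this

theorem NN_pos (i : ℕ) : 0 < (NN i : ℝ) := by
  have h := NN_ge i
  have h2 : (0:ℝ) < 2 ^ i := by positivity
  by_contra hcon
  have h3 : (NN i : ℝ) = 0 := le_antisymm (not_lt.mp hcon) (Nat.cast_nonneg _)
  rw [h3] at h
  linarith

theorem kf_rpow_le (K2 : ℝ) (i : ℕ) : (kf K2 i : ℝ) ^ (-(3/4) : ℝ) ≤ 1 := by
  rcases Nat.eq_zero_or_pos (kf K2 i) with h | h
  · rw [h, Nat.cast_zero, Real.zero_rpow (by norm_num)]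
    exact zero_le_one
  · exact Real.rpow_le_one_of_one_le_of_nonpos (by exact_mod_cast h) (by norm_num)

theorem sc3 : Pool.Agent.Y41.EV.S_SC3 := by
  intro θ K2 A0 hθ hK hA
  have hA0 : 0 < A0 := by linarith
  have htau : ∀ i, 0 ≤ tau θ K2 i := by
    intro i
    unfold tau
    have := ww_pos i
    positivity
  have hell : ∀ i, 0 < ell A0 K2 i := by
    intro i
    unfold ell
    have h1 := ww_pos i
    have h2 := EE_pos K2 i
    have h3 := NN_pos i
    positivity
  refine ⟨?_, ?_, kf_tend hK, htau, Eventually.of_forall hell, ?_⟩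
  · have h1 : Tendsto (fun i : ℕ => A0 * ((1:ℝ)/2) ^ i) atTop (𝓝 0) := by
      simpa using half_tend.const_mul A0
    refine squeeze_zero' (Eventually.of_forall fun i => (hell i).le) ?_ h1
    filter_upwards [eventually_ge_atTop 1] with i hi
    unfold ell
    refine mul_le_mul_of_nonneg_left ?_ hA0.le
    have hw := ww_pos i
    have hE := EE_pos K2 i
    rw [Real.mul_rpow hw.le hE.le]
    have e1 := ww_pow_le hi
    have e2 := EE_pow_le hK hi
    have e3 := NN_pow i
    have e4 := i_half i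
    calc ww i ^ (7/4 : ℝ) * EE K2 i ^ (7/4 : ℝ) * NN i
        ≤ (1/2) ^ (7 * i) * i * 2 ^ i := by
          refine mul_le_mul (mul_le_mul e1 e2 (by positivity) (by positivity)) e3
            (Nat.cast_nonneg _) (by positivity)
      _ = (i * (1/2) ^ i) * ((1/2) ^ i * 2 ^ i) * (1/2) ^ (5 * i) := by
          rw [show 7 * i = i + i + 5 * i by ring, pow_add, pow_add]
          ring
      _ = (i * (1/2) ^ i) * (1/2) ^ (5 * i) := by
          rw [← mul_pow]
          norm_num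
      _ ≤ 1 * (1/2) ^ i := by
          refine mul_le_mul e4 ?_ (by positivity) (by norm_num)
          exact pow_le_pow_of_le_one (by norm_num) (by norm_num) (by omega)
      _ = (1/2) ^ i := one_mul _
  · have h1 : Tendsto (fun i : ℕ => θ * ((1:ℝ)/2) ^ i) atTop (𝓝 0) := by
      simpa using half_tend.const_mul θ
    refine squeeze_zero' (Eventually.of_forall htau) ?_ h1
    filter_upwards [eventually_ge_atTop 1] with i hi
    unfold tau
    refine mul_le_mul_of_nonneg_left ?_ hθ.le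
    have hw := ww_pos i
    calc (kf K2 i : ℝ) ^ (-(3/4) : ℝ) * ww i ^ (7/4 : ℝ) ≤ 1 * (1/2) ^ (7 * i) :=
          mul_le_mul (kf_rpow_le K2 i) (ww_pow_le hi) (by positivity) zero_le_one
      _ ≤ (1/2) ^ i := by
          rw [one_mul]
          exact pow_le_pow_of_le_one (by norm_num) (by norm_num) (by omega)
  · intro ρ hρ
    have h1 : Tendsto (fun i : ℕ => A0 * ((1:ℝ)/2) ^ i) atTop (𝓝 0) := by
      simpa using half_tend.const_mul A0
    filter_upwards [h1.eventually (ge_mem_nhds hρ), eventually_ge_atTop 1] with i h2 hi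
    refine le_trans (mul_le_mul_of_nonneg_left ?_ hA0.le) h2
    have h3 := EE_le hK hi
    have h4 := ww_le hi
    calc ww i * EE K2 i ≤ (1/2) ^ (2 * i) * i :=
          mul_le_mul h4 h3 (EE_pos K2 i).le (by positivity)
      _ = (i * (1/2) ^ i) * (1/2) ^ i := by rw [two_mul, pow_add]; ring
      _ ≤ 1 * (1/2) ^ i := mul_le_mul_of_nonneg_right (i_half i) (by positivity)
      _ = _ := one_mul _

end Pool.Agent.Y287.EV
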