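import Pool.Agent.Y41.EV.StmD

/-!
Project EV, job TREE2: recursion over the scales.
-/

set_option autoImplicit false

namespace Pool.Agent.Y287.EV

open MeasureTheory Filter Topology Pool.Agent.Y995.HG Pool.Agent.Y41.EV

/-- midpoint -/
noncomputable def mdp (s t : unitInterval) : unitInterval :=
  ⟨((s : ℝ) + t) / 2, by have := s.2.1; have := t.2.1; linarith,
    by have := s.2.2; have := t.2.2; linarith⟩

theorem mdp_val (s t : unitInterval) : ((mdp s t : unitInterval) : ℝ) = ((s : ℝ) + t) / 2 := rfl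

theorem tree2 : Pool.Agent.Y41.EV.S_TREE1 → Pool.Agent.Y41.EV.S_TREE2 := by
  intro h1 f η T c0 N ℓ τ w a i0 I0 hη hT hc0 hd hbas hpsi hgain hpairs m
  induction m generalizing i0 with
  | zero =>
    intro s t _ hl
    have hl0 : 0 < ℓ i0 := (hbas i0 le_rfl).2.2.1
    have hst : (s : ℝ) ≤ t := by
      by_contra hcon
      push Not at hcon
      have : T * ((t : ℝ) - s) ≤ 0 := mul_nonpos_of_nonneg_of_nonpos hT.le (by linarith)
      linarith
    refine (VG.triv f hη hst).le (le_of_eq ?_)
    rw [add_zero, Finset.Ico_self, Finset.sum_empty, min_eq_right hc0.le, zero_mul]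
  | succ m ih =>
    have ih' := ih (i0 + 1) (fun i hi => hbas i (by omega)) (fun i hi => hpsi i (by omega))
      (fun i hi => hgain i (by omega)) (fun i hi => hpairs i (by omega))
    obtain ⟨hN, hw, hl0, ha0, hτ, hlη⟩ := hbas i0 le_rfl
    obtain ⟨-, -, hl1, -, -, hlη1⟩ := hbas (i0 + 1) (by omega)
    obtain ⟨S, hS⟩ : ∃ S, S = ∑ i ∈ Finset.Ico (i0 + 1) (i0 + 1 + m), a i := ⟨_, rfl⟩
    rw [← hS] at ih'
    have hS0 : 0 ≤ S := by
      rw [hS]
      refine Finset.sum_nonneg fun i hi => ?_
      rw [Finset.mem_Ico] at hi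
      exact (hbas i (by omega)).2.2.2.1
    have hsum : ∑ i ∈ Finset.Ico i0 (i0 + (m + 1)), a i = a i0 + S := by
      rw [Finset.sum_eq_sum_Ico_succ_bot (by omega), hS]
      congr 2
      congr 1
      omega
    rw [hsum]
    obtain ⟨α, hα⟩ : ∃ α, α = min c0 S := ⟨_, rfl⟩
    rw [← hα] at ih'
    have hα0 : 0 ≤ α := by rw [hα]; exact le_min hc0.le hS0
    have hαc : α ≤ c0 := by rw [hα]; exact min_le_left _ _
    -- one piece
    have hone : ∀ s t : unitInterval, Set.Icc s t ⊆ I0 → ℓ i0 < T * ((t : ℝ) - s) →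
        T * ((t : ℝ) - s) ≤ 2 * ℓ i0 → VG f η s t ((α + a i0) * (T * ((t : ℝ) - s))) := by
      intro s t hI hl hl2
      have hst : (s : ℝ) ≤ t := by
        by_contra hcon
        push Not at hcon
        have : T * ((t : ℝ) - s) ≤ 0 := mul_nonpos_of_nonneg_of_nonpos hT.le (by linarith)
        linarith
      have h2 := h1 f η T c0 α (w i0) (τ i0) (ℓ (i0 + 1)) (N i0) s t hη hT hN hα0 hαc hw hl1 hst
        (hpsi i0 le_rfl) hτ hlη1 hd
        (fun s' t' hs hs' ht' hl' => ih' s' t' (fun x hx => hI ⟨hs.trans hx.1, hx.2.trans ht'⟩) hl')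
        (hpairs i0 le_rfl s t hI hl)
      refine h2.le ?_
      have h3 := hgain i0 le_rfl
      have h4 : a i0 * (T * ((t : ℝ) - s)) ≤ a i0 * (2 * ℓ i0) := mul_le_mul_of_nonneg_left hl2 ha0
      nlinarith
    -- many pieces
    have hmany : ∀ k : ℕ, ∀ s t : unitInterval, Set.Icc s t ⊆ I0 → ℓ i0 < T * ((t : ℝ) - s) →
        T * ((t : ℝ) - s) ≤ 2 ^ k * (2 * ℓ i0) →
        VG f η s t ((α + a i0) * (T * ((t : ℝ) - s))) := by
      intro k
      induction k with
      | zero =>
        intro s t hI hl hl2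
        rw [pow_zero, one_mul] at hl2
        exact hone s t hI hl hl2
      | succ k ihk =>
        intro s t hI hl hl2
        by_cases h2 : T * ((t : ℝ) - s) ≤ 2 * ℓ i0
        · exact hone s t hI hl h2
        push Not at h2
        have hst : (s : ℝ) ≤ t := by
          by_contra hcon
          push Not at hcon
          have : T * ((t : ℝ) - s) ≤ 0 := mul_nonpos_of_nonneg_of_nonpos hT.le (by linarith)
          linarith
        have hsm : s ≤ mdp s t := by
          show (s : ℝ) ≤ ((s : ℝ) + t) / 2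
          linarith
        have hmt : mdp s t ≤ t := by
          show ((s : ℝ) + t) / 2 ≤ (t : ℝ)
          linarith
        have e1 : T * (((mdp s t : unitInterval) : ℝ) - s) = T * ((t : ℝ) - s) / 2 := by
          rw [mdp_val]; ring
        have e2 : T * ((t : ℝ) - (mdp s t : unitInterval)) = T * ((t : ℝ) - s) / 2 := by
          rw [mdp_val]; ring
        have h3 := ihk s (mdp s t) (fun x hx => hI ⟨hx.1, hx.2.trans hmt⟩)
          (by rw [e1]; linarith) (by rw [e1, div_le_iff₀ (by norm_num)]; rw [pow_succ] at hl2; linarith)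
        have h4 := ihk (mdp s t) t (fun x hx => hI ⟨hsm.trans hx.1, hx.2⟩)
          (by rw [e2]; linarith) (by rw [e2, div_le_iff₀ (by norm_num)]; rw [pow_succ] at hl2; linarith)
        refine (h3.add h4).le (le_of_eq ?_)
        rw [e1, e2]
        ring
    intro s t hI hl
    obtain ⟨k, hk⟩ : ∃ k : ℕ, T * ((t : ℝ) - s) / (2 * ℓ i0) < 2 ^ k :=
      pow_unbounded_of_one_lt _ one_lt_two
    rw [div_lt_iff₀ (by positivity)] at hk
    refine (hmany k s t hI hl hk.le).le ?_
    refine mul_le_mul_of_nonneg_right ?_ (hl0.trans hl).le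
    rw [hα]
    rcases le_total c0 S with h | h
    · rw [min_eq_left h]
      exact (min_le_left _ _).trans (by linarith)
    · rw [min_eq_right h]
      exact (min_le_right _ _).trans (by linarith)

end Pool.Agent.Y287.EV
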